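import Pool.Agent.W192.WO.Parts
import Pool.Agent.W804.CY.NCoef

/-!
# Bounds for the coefficients, weight one
-/

set_option autoImplicit false

open Complex Filter Topology Set UpperHalfPlane MatrixGroups CongruenceSubgroup

namespace Pool.Agent.W538.WO

open Pool.Agent.W192.WO
open Pool.Agent.W192.CY (cf NInv)
open Pool.Agent.W804.CY (coeff_zeroC gen good_bound)

theorem w_coef : W_COEF := by
  intro N _ η f w hf
  set c : ℕ → ℂ := fun n => cf f n * (Real.sqrt n : ℂ) with hcdef
  have hcn : ∀ n, c n = cf f n * (Real.sqrt n : ℂ) := fun n => rfl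
  have hsq : ∀ p j : ℕ, Real.sqrt ((p ^ j : ℕ) : ℝ) = Real.sqrt (p : ℝ) ^ j := by
    intro p j
    have h0 : (0 : ℝ) ≤ p := Nat.cast_nonneg p
    rw [Nat.cast_pow]
    conv_lhs => rw [← Real.sq_sqrt h0]
    rw [← pow_mul, mul_comm 2 j, pow_mul]
    exact Real.sqrt_sq (by positivity)
  have hpp : ∀ p : ℕ, (Real.sqrt (p : ℝ) : ℂ) ^ 2 = (p : ℂ) := by
    intro p
    rw [← Complex.ofReal_pow, Real.sq_sqrt (Nat.cast_nonneg p)]
    simp
  have hcpw : ∀ p j : ℕ, c (p ^ j) = cf f (p ^ j) * (Real.sqrt (p : ℝ) : ℂ) ^ j := by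
    intro p j
    rw [hcn, hsq, Complex.ofReal_pow]
  have c0 : c 0 = 0 := by
    rw [hcn]
    unfold cf
    rw [coeff_zeroC, zero_mul]
  have c1 : c 1 = 1 := by
    rw [hcn, hf.one]
    simp
  have cm : ∀ a b : ℕ, Nat.Coprime a b → c (a * b) = c a * c b := by
    intro a b h
    rw [hcn, hcn, hcn, hf.mul a b h, Nat.cast_mul, Real.sqrt_mul (Nat.cast_nonneg a)]
    push_cast
    ring
  have cp : ∀ p j : ℕ, p.Prime → c (p ^ (j + 2)) = c p * c (p ^ (j + 1)) -
      η (p : ZMod N) * p * c (p ^ j) := by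
    intro p j hp
    rw [hcpw, hcpw, hcpw, hcn, hf.pow p j hp, ← hpp p]
    ring
  have he : ∀ p : ℕ, ‖η (p : ZMod N)‖ ≤ 1 := fun p => η.norm_le_one _
  have hcnorm : ∀ p : ℕ, ‖c p‖ = ‖cf f p‖ * √(p : ℝ) := by
    intro p
    rw [hcn, norm_mul, Complex.norm_real, Real.norm_of_nonneg (Real.sqrt_nonneg _)]
  have hcb : ∀ p j : ℕ, p.Prime → ‖c (p ^ j)‖ ≤ (j + 1) * √(p : ℝ) ^ j := by
    intro p j hp
    have hp1 : (1 : ℝ) ≤ √(p : ℝ) := by
      rw [Real.one_le_sqrt]
      exact_mod_cast hp.one_lt.le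
    by_cases hN : p ∣ N
    · have hη : η (p : ZMod N) = 0 := by
        apply MulChar.map_nonunit
        rw [ZMod.isUnit_iff_coprime]
        intro h
        have := Nat.Coprime.eq_one_of_dvd h hN
        exact hp.one_lt.ne' this
      have h1 : ∀ i, c (p ^ i) = c p ^ i := by
        intro i
        induction i with
        | zero => rw [pow_zero, pow_zero, c1]
        | succ i ih =>
          rcases i with _ | i
          · rw [zero_add, pow_one, pow_one]
          · rw [cp p i hp, hη, zero_mul, zero_mul, sub_zero, ih, ← pow_succ']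
      have hb := hf.bad p hp hN
      have hb2 : ‖c p‖ ≤ √(p : ℝ) := by
        rw [hcnorm]
        nlinarith
      rw [h1, norm_pow]
      have h2 : ‖c p‖ ^ j ≤ √(p : ℝ) ^ j := pow_le_pow_left₀ (norm_nonneg _) hb2 j
      have h4 : (0 : ℝ) ≤ j := Nat.cast_nonneg j
      have h5 : 0 ≤ √(p : ℝ) ^ j := by positivity
      nlinarith
    · have hu : ‖η (p : ZMod N)‖ = 1 := by
        have hun : IsUnit (p : ZMod N) := by
          rw [ZMod.isUnit_iff_coprime]
          exact (Nat.Prime.coprime_iff_not_dvd hp).2 hN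
        obtain ⟨v, hv⟩ := hun
        rw [← hv]
        exact η.unit_norm_eq_one v
      have hb := hf.good p hp hN
      have hb2 : ‖c p‖ ≤ 2 * √(p : ℝ) := by
        rw [hcnorm]
        exact mul_le_mul_of_nonneg_right hb (by positivity)
      refine good_bound (p : ℝ) (Nat.cast_nonneg p) (fun i => c (p ^ i)) (η (p : ZMod N)) hu
        ?_ ?_ ?_ ?_ j
      · simp [c1]
      · simp only [pow_one]
        rw [hcn, map_mul, hf.conj p hp hN, Complex.conj_ofReal, mul_assoc]
      · simp only [pow_one]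
        exact hb2
      · intro i
        simp only [pow_one]
        rw [cp p i hp]
        push_cast
        ring
  exact gen c (fun p => η (p : ZMod N)) c0 c1 cm cp hcb he

end Pool.Agent.W538.WO
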